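import Mathlib

namespace Pool.Agent.Q42.IP
open Finset ComplexConjugate

/-- the possible values of the normalised Gauss sums -/
def K0 : Set ℝ := {0} ∪ ((Set.range fun n : ℕ => 1 / Real.sqrt n) ∪ (Set.range fun n : ℕ => -(1 / Real.sqrt n)))

section
variable {B Z : Type*} [Group B] [Fintype B] [CommGroup Z] [Fintype Z]

/-- a quadratic map with the bimultiplicative map `β` -/
structure Quad (k : B → Z) (β : B → B → Z) : Prop where
  mul : ∀ x y, k (x * y) = k x * k y * β x y
  left : ∀ x y z, β (x * y) z = β x z * β y z
  right : ∀ x y z, β x (y * z) = β x y * β x z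
  diag : ∀ x, β x x⁻¹ = 1

theorem gauss {k : B → Z} {β : B → B → Z} (h : Quad k β) (χ : AddChar (Additive Z) ℂ) :
    ∃ e ∈ K0, (∑ x : B, χ (Additive.ofMul (k x))) / (Fintype.card B : ℂ) = (e : ℂ) := by
  classical
  let F : B → ℂ := fun x => χ (Additive.ofMul (k x))
  let c : B → B → ℂ := fun x y => χ (Additive.ofMul (β x y))
  have hnorm : ∀ z, ‖χ z‖ = 1 := fun z => AddChar.norm_apply χ z
  have hmul : ∀ x y, F (x * y) = F x * F y * c x y := by
    intro x y
    simp only [F, c]
    rw [h.mul, ofMul_mul, ofMul_mul, AddChar.map_add_eq_mul, AddChar.map_add_eq_mul]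
  have hcl : ∀ x y z, c (x * y) z = c x z * c y z := by
    intro x y z
    simp only [c]
    rw [h.left, ofMul_mul, AddChar.map_add_eq_mul]
  have hcr : ∀ x y z, c x (y * z) = c x y * c x z := by
    intro x y z
    simp only [c]
    rw [h.right, ofMul_mul, AddChar.map_add_eq_mul]
  have hcd : ∀ x, c x x⁻¹ = 1 := by
    intro x
    simp only [c]
    rw [h.diag, ofMul_one, AddChar.map_zero_eq_one]
  have hc1 : c 1 1 = 1 := by simpa using hcd 1
  have hFn : ∀ x, F x ≠ 0 := fun x hx => by
    have := hnorm (Additive.ofMul (k x))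
    simp only [F] at hx
    rw [hx, norm_zero] at this
    exact zero_ne_one this
  have hF1 : F 1 = 1 := by
    have h1 := hmul 1 1
    rw [mul_one, hc1, mul_one] at h1
    have h2 : F 1 * 1 = F 1 * F 1 := by rw [mul_one]; exact h1
    exact (mul_left_cancel₀ (hFn 1) h2).symm
  have hFinv : ∀ x, F x * F x⁻¹ = 1 := by
    intro x
    have h1 := hmul x x⁻¹
    rw [mul_inv_cancel, hF1, hcd, mul_one] at h1
    exact h1.symm
  have hconj : ∀ x, conj (F x) = F x⁻¹ := by
    intro x
    have h1 : F x * conj (F x) = 1 := by
      rw [Complex.mul_conj, Complex.normSq_eq_norm_sq]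
      have := hnorm (Additive.ofMul (k x))
      simp only [F]
      rw [this]; simp
    have h2 := hFinv x
    exact mul_left_cancel₀ (hFn x) (h1.trans h2.symm)
  set S : ℂ := ∑ x : B, F x with hS
  set N : ℂ := (Fintype.card B : ℂ) with hN
  have hNpos : 0 < (Fintype.card B : ℝ) := by exact_mod_cast Fintype.card_pos
  have hN0 : N ≠ 0 := by
    rw [hN]; exact_mod_cast hNpos.ne'
  have hreal : conj S = S := by
    rw [hS, map_sum]
    rw [Finset.sum_congr rfl fun x _ => hconj x]
    exact Fintype.sum_equiv (Equiv.inv B) _ _ fun x => rfl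
  -- the radical
  let Rad : Subgroup B :=
    { carrier := {u | ∀ x, c u x = 1}
      mul_mem' := fun {a b} ha hb x => by rw [hcl, ha x, hb x, one_mul]
      one_mem' := fun x => by
        have h1 := hcl 1 1 x
        rw [mul_one] at h1
        have hne : c 1 x ≠ 0 := fun h0 => by
          have := hnorm (Additive.ofMul (β 1 x))
          simp only [c] at h0
          rw [h0, norm_zero] at this
          exact zero_ne_one this
        have h2 : c 1 x * 1 = c 1 x * c 1 x := by rw [mul_one]; exact h1
        exact (mul_left_cancel₀ hne h2).symm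
      inv_mem' := fun {a} ha x => by
        have h1 := hcl a a⁻¹ x
        have h0 : c (1 : B) x = 1 := by
          have h1 := hcl 1 1 x
          rw [mul_one] at h1
          have hne : c 1 x ≠ 0 := fun h0 => by
            have := hnorm (Additive.ofMul (β 1 x))
            simp only [c] at h0
            rw [h0, norm_zero] at this
            exact zero_ne_one this
          have h2 : c 1 x * 1 = c 1 x * c 1 x := by rw [mul_one]; exact h1
          exact (mul_left_cancel₀ hne h2).symm
        rw [mul_inv_cancel, h0, ha x, one_mul] at h1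
        exact h1.symm }
  have hsum : ∀ u, ∑ x : B, c u x = if u ∈ Rad then N else 0 := by
    intro u
    by_cases hu : u ∈ Rad
    · rw [if_pos hu]
      have : ∀ x, c u x = 1 := hu
      rw [Finset.sum_congr rfl fun x _ => this x]
      simp [hN]
    · rw [if_neg hu]
      have : ∃ x0, c u x0 ≠ 1 := by
        by_contra hcon
        push Not at hcon
        exact hu hcon
      obtain ⟨x0, hx0⟩ := this
      have h1 : c u x0 * ∑ x : B, c u x = ∑ x : B, c u x := by
        rw [Finset.mul_sum]
        rw [← Fintype.sum_equiv (Equiv.mulLeft x0) (fun x => c u (x0 * x)) (fun x => c u x) fun x => rfl]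
        exact Finset.sum_congr rfl fun x _ => (hcr u x0 x).symm
      have h2 : (c u x0 - 1) * ∑ x : B, c u x = 0 := by rw [sub_mul, one_mul, h1, sub_self]
      exact (mul_eq_zero.1 h2).resolve_left (sub_ne_zero.2 hx0)
  have hS2 : S * S = N * ∑ u : B, if u ∈ Rad then F u else 0 := by
    calc S * S = S * conj S := by rw [hreal]
      _ = ∑ x : B, S * conj (F x) := by rw [hS, map_sum, Finset.mul_sum]
      _ = ∑ x : B, ∑ u : B, F u * c u x := by
          apply Finset.sum_congr rfl
          intro x _
          have h1 : S = ∑ u : B, F (u * x) := by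
            rw [hS]
            exact (Fintype.sum_equiv (Equiv.mulRight x) (fun u => F (u * x)) F fun u => rfl).symm
          rw [h1, Finset.sum_mul]
          apply Finset.sum_congr rfl
          intro u _
          rw [hmul, hconj]
          calc F u * F x * c u x * F x⁻¹ = F u * c u x * (F x * F x⁻¹) := by ring
            _ = _ := by rw [hFinv, mul_one]
      _ = ∑ u : B, F u * ∑ x : B, c u x := by
          rw [Finset.sum_comm]
          exact Finset.sum_congr rfl fun u _ => (Finset.mul_sum _ _ _).symm
      _ = N * ∑ u : B, if u ∈ Rad then F u else 0 := by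
          rw [Finset.mul_sum]
          apply Finset.sum_congr rfl
          intro u _
          rw [hsum]
          split_ifs <;> ring
  have hRadsum : (∑ u : B, if u ∈ Rad then F u else 0) = 0 ∨
      (∑ u : B, if u ∈ Rad then F u else 0) = (Nat.card Rad : ℂ) := by
    by_cases hall : ∀ u ∈ Rad, F u = 1
    · right
      have : ∀ u : B, (if u ∈ Rad then F u else 0) = if u ∈ Rad then (1 : ℂ) else 0 := by
        intro u
        split_ifs with hu
        · exact hall u hu
        · rfl
      rw [Finset.sum_congr rfl fun u _ => this u, Finset.sum_boole, Nat.card_eq_fintype_card, Fintype.card_subtype]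
    · left
      push Not at hall
      obtain ⟨u0, hu0, hne⟩ := hall
      have h1 : F u0 * (∑ u : B, if u ∈ Rad then F u else 0) = ∑ u : B, if u ∈ Rad then F u else 0 := by
        rw [Finset.mul_sum]
        rw [← Fintype.sum_equiv (Equiv.mulLeft u0) (fun u => if u0 * u ∈ Rad then F (u0 * u) else 0)
          (fun u => if u ∈ Rad then F u else 0) fun u => rfl]
        apply Finset.sum_congr rfl
        intro u _
        have h2 : u0 * u ∈ Rad ↔ u ∈ Rad := Subgroup.mul_mem_cancel_left Rad hu0
        by_cases hu : u ∈ Rad
        · rw [if_pos hu, if_pos (h2.2 hu), hmul]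
          have : c u0 u = 1 := hu0 u
          rw [this, mul_one]
        · rw [if_neg hu, if_neg (fun h => hu (h2.1 h)), mul_zero]
      have h2 : (F u0 - 1) * (∑ u : B, if u ∈ Rad then F u else 0) = 0 := by rw [sub_mul, one_mul, h1, sub_self]
      exact (mul_eq_zero.1 h2).resolve_left (sub_ne_zero.2 hne)
  -- the real number
  obtain ⟨s, hs⟩ := Complex.conj_eq_iff_real.1 hreal
  refine ⟨s / Fintype.card B, ?_, ?_⟩
  · have hcardB : (Fintype.card B : ℝ) = Nat.card Rad * Rad.index := by
      rw [← Nat.card_eq_fintype_card]
      exact_mod_cast (Subgroup.card_mul_index Rad).symm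
    rcases hRadsum with h0 | h0
    · rw [h0, mul_zero, hs] at hS2
      have : s = 0 := by
        have h3 : (s : ℂ) = 0 := mul_self_eq_zero.1 hS2
        exact_mod_cast h3
      rw [this, zero_div]
      exact Or.inl rfl
    · rw [h0, hs, hN] at hS2
      have h3 : s * s = Fintype.card B * Nat.card Rad := by exact_mod_cast hS2
      have hR0 : (0 : ℝ) < Nat.card Rad := by exact_mod_cast Nat.card_pos
      have hI0 : (0 : ℝ) < Rad.index := by
        have : Rad.index ≠ 0 := Subgroup.index_ne_zero_of_finite
        exact_mod_cast Nat.pos_of_ne_zero this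
      have h4 : (s / Fintype.card B) ^ 2 = 1 / Rad.index := by
        rw [div_pow, sq s, h3, hcardB]
        field_simp
      right
      have h5 : |s / Fintype.card B| = 1 / Real.sqrt Rad.index := by
        rw [← Real.sqrt_sq_eq_abs, h4, Real.sqrt_div zero_le_one, Real.sqrt_one]
      rcases abs_choice (s / Fintype.card B) with h6 | h6
      · left
        exact ⟨Rad.index, by simp only; rw [← h5, h6]⟩
      · right
        exact ⟨Rad.index, by simp only; rw [← h5, h6, neg_neg]⟩
  · change S / N = _
    rw [hs, hN]
    push_cast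
    rfl

/-- the proportion of the zeros of a quadratic map -/
theorem zeros {k : B → Z} {β : B → B → Z} (h : Quad k β) [DecidableEq Z] :
    ∃ e : AddChar (Additive Z) ℂ → ℝ, (∀ χ, e χ ∈ K0) ∧
      ((univ.filter fun x : B => k x = 1).card : ℝ) / Fintype.card B =
        1 / (Fintype.card Z : ℝ) * ∑ χ, e χ := by
  classical
  choose e he1 he2 using gauss h
  refine ⟨e, he1, ?_⟩
  have hNpos : (0 : ℝ) < Fintype.card B := by exact_mod_cast Fintype.card_pos
  have hZpos : (0 : ℝ) < Fintype.card Z := by exact_mod_cast Fintype.card_pos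
  have h1 : ∑ χ : AddChar (Additive Z) ℂ, ∑ x : B, χ (Additive.ofMul (k x)) =
      (Fintype.card Z : ℂ) * ((univ.filter fun x : B => k x = 1).card : ℂ) := by
    rw [Finset.sum_comm]
    have h2 : ∀ x : B, ∑ χ : AddChar (Additive Z) ℂ, χ (Additive.ofMul (k x)) = if k x = 1 then (Fintype.card Z : ℂ) else 0 := by
      intro x
      rw [AddChar.sum_apply_eq_ite]
      simp only [ofMul_eq_zero]
      rw [Fintype.card_congr (Additive.toMul (α := Z))]
    rw [Finset.sum_congr rfl fun x _ => h2 x, ← Finset.sum_filter, Finset.sum_const, nsmul_eq_mul, mul_comm]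
  have h3 : ∑ χ : AddChar (Additive Z) ℂ, (e χ : ℂ) = (Fintype.card Z : ℂ) * ((univ.filter fun x : B => k x = 1).card : ℂ) / Fintype.card B := by
    rw [← h1, Finset.sum_div]
    exact Finset.sum_congr rfl fun χ _ => (he2 χ).symm
  have h4 : ∑ χ : AddChar (Additive Z) ℂ, e χ = (Fintype.card Z : ℝ) * ((univ.filter fun x : B => k x = 1).card : ℝ) / Fintype.card B := by
    apply Complex.ofReal_injective
    push_cast
    rw [h3]
  rw [h4]
  field_simp

end
end Pool.Agent.Q42.IP
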