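import Mathlib

namespace Pool.Agent.Q42.IP
open Finset
open scoped Pointwise

section
variable {G : Type*} [Group G] [Fintype G] [DecidableEq G]

/-- the conjugacy class -/
def cl (x : G) : Finset G := univ.image fun g => g * x * g⁻¹

/-- the centraliser -/
def cen (x : G) : Finset G := univ.filter fun g => g * x = x * g

/-- the solutions of `x ^ 2 = 1` -/
def TT (G : Type*) [Group G] [Fintype G] [DecidableEq G] : Finset G := univ.filter fun x => x * x = 1

theorem mem_cl {x y : G} : y ∈ cl x ↔ ∃ g, g * x * g⁻¹ = y := by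
  unfold cl
  simp

theorem mem_cl_conj (x g : G) : g * x * g⁻¹ ∈ cl x := mem_cl.2 ⟨g, rfl⟩

theorem cl_cen (x : G) : (cl x).card * (cen x).card ≤ Fintype.card G := by
  have h := Finset.card_eq_sum_card_image (fun g : G => g * x * g⁻¹) univ
  rw [Finset.card_univ] at h
  rw [h, ← smul_eq_mul, ← Finset.sum_const]
  apply Finset.sum_le_sum
  intro y hy
  obtain ⟨g0, _, rfl⟩ := Finset.mem_image.1 hy
  apply Finset.card_le_card_of_injOn (fun c => g0 * c)
  · intro c hc
    rw [Finset.mem_coe] at hc ⊢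
    rw [Finset.mem_filter]
    refine ⟨Finset.mem_univ _, ?_⟩
    have hc' : c * x = x * c := (Finset.mem_filter.1 hc).2
    have : c * x * c⁻¹ = x := by rw [hc', mul_inv_cancel_right]
    calc g0 * c * x * (g0 * c)⁻¹ = g0 * (c * x * c⁻¹) * g0⁻¹ := by group
      _ = _ := by rw [this]
  · intro a _ b _ hab
    exact mul_left_cancel hab

theorem sq_card_T : (TT G).card ^ 2 ≤ ∑ g : G, (cen g).card := by
  have h := Finset.card_eq_sum_card_fiberwise (f := fun p : G × G => p.1 * p.2) (s := TT G ×ˢ TT G)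
    (t := (univ : Finset G)) (fun _ _ => Finset.mem_coe.2 (Finset.mem_univ _))
  rw [Finset.card_product] at h
  rw [sq, h]
  apply Finset.sum_le_sum
  intro g _
  rcases Finset.eq_empty_or_nonempty ((TT G ×ˢ TT G).filter fun p => p.1 * p.2 = g) with h0 | ⟨⟨s0, t0⟩, h0⟩
  · rw [h0]; simp
  · have key : ∀ s t : G, s * s = 1 → t * t = 1 → s * t = g → s * g = g⁻¹ * s := by
      intro s t hs ht hst
      have hsi : s⁻¹ = s := inv_eq_of_mul_eq_one_left hs
      have hti : t⁻¹ = t := inv_eq_of_mul_eq_one_left ht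
      rw [← hst, mul_inv_rev, hsi, hti, ← mul_assoc, hs, one_mul, mul_assoc, hs, mul_one]
    rw [Finset.mem_filter, Finset.mem_product] at h0
    have hs0 : s0 * s0 = 1 := (Finset.mem_filter.1 h0.1.1).2
    have ht0 : t0 * t0 = 1 := (Finset.mem_filter.1 h0.1.2).2
    have k0 := key s0 t0 hs0 ht0 h0.2
    have k0' : s0 * g⁻¹ = g * s0 := by
      have h1 : g * (s0 * g) * g⁻¹ = g * (g⁻¹ * s0) * g⁻¹ := by rw [k0]
      have h2 : g * (s0 * g) * g⁻¹ = g * s0 := by group
      have h3 : g * (g⁻¹ * s0) * g⁻¹ = s0 * g⁻¹ := by group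
      rw [h2, h3] at h1
      exact h1.symm
    apply Finset.card_le_card_of_injOn (fun p => s0 * p.1)
    · rintro ⟨s, t⟩ hp
      rw [Finset.mem_coe, Finset.mem_filter, Finset.mem_product] at hp
      have hs : s * s = 1 := (Finset.mem_filter.1 hp.1.1).2
      have ht : t * t = 1 := (Finset.mem_filter.1 hp.1.2).2
      have k1 := key s t hs ht hp.2
      rw [Finset.mem_coe]
      unfold cen
      rw [Finset.mem_filter]
      refine ⟨Finset.mem_univ _, ?_⟩
      change s0 * s * g = g * (s0 * s)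
      rw [mul_assoc, k1, ← mul_assoc, k0', mul_assoc]
    · rintro ⟨s, t⟩ hp ⟨s', t'⟩ hp' hss
      rw [Finset.mem_coe, Finset.mem_filter] at hp hp'
      have h1 : s = s' := mul_left_cancel hss
      subst h1
      have h2 : s * t = s * t' := hp.2.trans hp'.2.symm
      rw [mul_left_cancel h2]

/-- the elements with at most `L` conjugates -/
def XX (G : Type*) [Group G] [Fintype G] [DecidableEq G] (L : ℕ) : Finset G := univ.filter fun x => (cl x).card ≤ L

theorem card_XX (q : ℕ) (hq : Fintype.card G ≤ q * (TT G).card) :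
    Fintype.card G ≤ 2 * q ^ 2 * (XX G (2 * q ^ 2)).card := by
  set N := Fintype.card G with hN
  have hN0 : 0 < N := Fintype.card_pos
  set X := XX G (2 * q ^ 2) with hX
  have h1 : N ^ 2 ≤ q ^ 2 * ∑ g : G, (cen g).card := by
    calc N ^ 2 ≤ (q * (TT G).card) ^ 2 := Nat.pow_le_pow_left hq 2
      _ = q ^ 2 * (TT G).card ^ 2 := by ring
      _ ≤ _ := Nat.mul_le_mul_left _ sq_card_T
  have h2 : 2 * q ^ 2 * ∑ g : G, (cen g).card ≤ 2 * q ^ 2 * (X.card * N) + N * N := by
    rw [← Finset.sum_filter_add_sum_filter_not univ (fun x : G => (cl x).card ≤ 2 * q ^ 2), mul_add]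
    apply add_le_add
    · apply Nat.mul_le_mul_left
      calc ∑ x ∈ univ.filter (fun x : G => (cl x).card ≤ 2 * q ^ 2), (cen x).card
          ≤ ∑ x ∈ univ.filter (fun x : G => (cl x).card ≤ 2 * q ^ 2), N :=
            Finset.sum_le_sum fun x _ => Finset.card_le_univ _
        _ = X.card * N := by rw [Finset.sum_const, smul_eq_mul]; rfl
    · rw [Finset.mul_sum]
      calc ∑ x ∈ univ.filter (fun x : G => ¬ (cl x).card ≤ 2 * q ^ 2), 2 * q ^ 2 * (cen x).card
          ≤ ∑ x ∈ univ.filter (fun x : G => ¬ (cl x).card ≤ 2 * q ^ 2), N := by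
            apply Finset.sum_le_sum
            intro x hx
            have h3 := not_le.1 (Finset.mem_filter.1 hx).2
            calc 2 * q ^ 2 * (cen x).card ≤ (cl x).card * (cen x).card := Nat.mul_le_mul_right _ h3.le
              _ ≤ N := cl_cen x
        _ = (univ.filter (fun x : G => ¬ (cl x).card ≤ 2 * q ^ 2)).card * N := by rw [Finset.sum_const, smul_eq_mul]
        _ ≤ N * N := Nat.mul_le_mul_right _ (Finset.card_le_univ _)
  have hq0 : 0 < q := by
    rcases Nat.eq_zero_or_pos q with h | h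
    · subst h; omega
    · exact h
  have h3 : 2 * q ^ 2 * N ^ 2 ≤ q ^ 2 * (2 * q ^ 2 * (X.card * N) + N * N) := by
    calc 2 * q ^ 2 * N ^ 2 ≤ 2 * q ^ 2 * (q ^ 2 * ∑ g : G, (cen g).card) := Nat.mul_le_mul_left _ h1
      _ = q ^ 2 * (2 * q ^ 2 * ∑ g : G, (cen g).card) := by ring
      _ ≤ _ := Nat.mul_le_mul_left _ h2
  have h4 : q ^ 2 * N * N ≤ q ^ 2 * N * (2 * q ^ 2 * X.card) := by nlinarith
  exact Nat.le_of_mul_le_mul_left h4 (by positivity)

theorem cl_mul (x y : G) : (cl (x * y)).card ≤ (cl x).card * (cl y).card := by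
  have h : cl (x * y) ⊆ cl x * cl y := by
    intro z hz
    obtain ⟨g, rfl⟩ := mem_cl.1 hz
    have : g * (x * y) * g⁻¹ = (g * x * g⁻¹) * (g * y * g⁻¹) := by group
    rw [this]
    exact Finset.mul_mem_mul (mem_cl_conj x g) (mem_cl_conj y g)
  exact (Finset.card_le_card h).trans Finset.card_mul_le

theorem cl_inv (x : G) : (cl x⁻¹).card = (cl x).card := by
  have : cl x⁻¹ = (cl x).image (fun y => y⁻¹) := by
    ext z
    rw [mem_cl, Finset.mem_image]
    constructor
    · rintro ⟨g, rfl⟩
      exact ⟨g * x * g⁻¹, mem_cl_conj x g, by group⟩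
    · rintro ⟨y, hy, rfl⟩
      obtain ⟨g, rfl⟩ := mem_cl.1 hy
      exact ⟨g, by group⟩
  rw [this, Finset.card_image_of_injective _ inv_injective]

theorem cl_conj (x g : G) : cl (g * x * g⁻¹) = cl x := by
  ext z
  rw [mem_cl, mem_cl]
  constructor
  · rintro ⟨h, rfl⟩
    exact ⟨h * g, by group⟩
  · rintro ⟨h, rfl⟩
    exact ⟨h * g⁻¹, by group⟩

theorem cl_one : (cl (1 : G)).card = 1 := by
  have : cl (1 : G) = {1} := by
    ext z
    rw [mem_cl, Finset.mem_singleton]
    constructor
    · rintro ⟨g, rfl⟩; group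
    · rintro rfl; exact ⟨1, by group⟩
  rw [this, Finset.card_singleton]

theorem pow_cl (L n : ℕ) (h : G) (hh : h ∈ (XX G L) ^ n) : (cl h).card ≤ L ^ n := by
  induction n generalizing h with
  | zero =>
    rw [pow_zero, Finset.mem_one] at hh
    rw [hh, cl_one, pow_zero]
  | succ n ih =>
    rw [pow_succ, Finset.mem_mul] at hh
    obtain ⟨a, ha, b, hb, rfl⟩ := hh
    calc (cl (a * b)).card ≤ (cl a).card * (cl b).card := cl_mul a b
      _ ≤ L ^ n * L := Nat.mul_le_mul (ih a ha) (Finset.mem_filter.1 hb).2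
      _ = _ := (pow_succ _ _).symm

/-- a dense symmetric set generates its span in boundedly many steps -/
theorem gen_bound (X : Finset G) (h1 : (1 : G) ∈ X) (hinv : ∀ x ∈ X, x⁻¹ ∈ X) (c : ℕ)
    (hc : Fintype.card G ≤ c * X.card) : ∀ h ∈ Subgroup.closure (X : Set G), h ∈ X ^ (3 * c + 3) := by
  have hmono : ∀ i j, i ≤ j → X ^ i ⊆ X ^ j := fun i j hij => Finset.pow_subset_pow_right h1 hij
  have hstab : ∃ i, i ≤ 3 * c + 2 ∧ X ^ (i + 1) ⊆ X ^ i := by
    by_contra hcon
    push Not at hcon
    have h2 : ∀ j : Fin (c + 1), ∃ g, g ∈ X ^ (3 * (j : ℕ) + 3) ∧ g ∉ X ^ (3 * (j : ℕ) + 2) := by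
      intro j
      have := hcon (3 * (j : ℕ) + 2) (by have := j.2; omega)
      rw [Finset.not_subset] at this
      exact this
    choose g hg1 hg2 using h2
    have hdis : ∀ i ∈ (univ : Finset (Fin (c + 1))), ∀ j ∈ (univ : Finset (Fin (c + 1))), i ≠ j →
        Disjoint (X.image fun x => g i * x) (X.image fun x => g j * x) := by
      have hlt : ∀ i j : Fin (c + 1), i < j → Disjoint (X.image fun x => g i * x) (X.image fun x => g j * x) := by
        intro i j hij
        rw [Finset.disjoint_left]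
        intro z hz1 hz2
        obtain ⟨a, ha, rfl⟩ := Finset.mem_image.1 hz1
        obtain ⟨b, hb, hab⟩ := Finset.mem_image.1 hz2
        apply hg2 j
        have h3 : g j = g i * a * b⁻¹ := by rw [← hab]; group
        rw [h3]
        have h4 : g i * a * b⁻¹ ∈ X ^ (3 * (i : ℕ) + 3 + 1 + 1) := by
          rw [pow_succ, pow_succ]
          exact Finset.mul_mem_mul (Finset.mul_mem_mul (hg1 i) ha) (hinv b hb)
        have hij' : (i : ℕ) < j := hij
        exact hmono _ _ (by omega) h4
      intro i _ j _ hij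
      rcases lt_or_gt_of_ne hij with h | h
      · exact hlt i j h
      · exact (hlt j i h).symm
    have h3 := Finset.card_biUnion hdis
    have h4 : ∀ i : Fin (c + 1), (X.image fun x => g i * x).card = X.card := fun i =>
      Finset.card_image_of_injective _ (mul_right_injective _)
    rw [Finset.sum_congr rfl fun i _ => h4 i, Finset.sum_const, Finset.card_univ, Fintype.card_fin, smul_eq_mul] at h3
    have h5 : (c + 1) * X.card ≤ Fintype.card G := by rw [← h3]; exact Finset.card_le_univ _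
    have h6 : 0 < X.card := Finset.card_pos.2 ⟨1, h1⟩
    have h7 : (c + 1) * X.card = c * X.card + X.card := by ring
    omega
  obtain ⟨i, hi, hsub⟩ := hstab
  have hstab2 : ∀ a ∈ X ^ i, ∀ b ∈ X, a * b ∈ X ^ i := fun a ha b hb =>
    hsub (by rw [pow_succ]; exact Finset.mul_mem_mul ha hb)
  intro h hh
  have h8 : h ∈ X ^ i := by
    have h9 : ∀ z ∈ Subgroup.closure (X : Set G), ∀ a ∈ X ^ i, a * z ∈ X ^ i := by
      intro z hz
      induction hz using Subgroup.closure_induction with
      | mem x hx => intro a ha; exact hstab2 a ha x (Finset.mem_coe.1 hx)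
      | one => intro a ha; rw [mul_one]; exact ha
      | mul x y _ _ hx hy => intro a ha; rw [← mul_assoc]; exact hy _ (hx a ha)
      | inv x _ hx =>
        intro a ha
        have hmaps : Set.MapsTo (fun a => a * x) (X ^ i : Finset G) (X ^ i : Finset G) := fun a ha => by
          rw [Finset.mem_coe] at ha ⊢
          exact hx a ha
        have hinj : Set.InjOn (fun a => a * x) (X ^ i : Finset G) := fun a _ b _ hab => mul_right_cancel hab
        have hsurj := Finset.surjOn_of_injOn_of_card_le (fun a => a * x) hmaps hinj le_rfl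
        obtain ⟨b, hb, hba⟩ := hsurj (Finset.mem_coe.2 ha)
        have : a * x⁻¹ = b := by rw [← hba]; simp
        rw [this]
        exact Finset.mem_coe.1 hb
    have h10 := h9 h hh 1 (hmono 0 i (Nat.zero_le _) (by rw [pow_zero]; exact Finset.mem_one.2 rfl))
    rwa [one_mul] at h10
  exact hmono i _ (by omega) h8

/-- **B. H. Neumann.** If all the classes have at most `b` elements then the number of commutators is bounded. -/
theorem card_commutatorSet_le (b : ℕ) (hb : ∀ x : G, (cl x).card ≤ b) :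
    Nat.card (commutatorSet G) ≤ b ^ b * (b * (b * b)) := by
  obtain ⟨a, _, ha⟩ := Finset.exists_max_image (univ : Finset G) (fun x => (cl x).card) ⟨1, Finset.mem_univ _⟩
  have hb1 : 1 ≤ b := by
    have := hb (1 : G)
    rw [cl_one] at this
    exact this
  -- representatives
  have hr : ∀ y : G, ∃ r : G, y ∈ cl a → r * a * r⁻¹ = y := by
    intro y
    by_cases hy : y ∈ cl a
    · obtain ⟨r, hr⟩ := mem_cl.1 hy
      exact ⟨r, fun _ => hr⟩
    · exact ⟨1, fun h => absurd h hy⟩
  choose r hr using hr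
  -- the set D
  have hD : ∀ x : G, (∀ y ∈ cl a, r y * x = x * r y) → ∀ h : G, h * x * h⁻¹ * x⁻¹ ∈ (cl a).image (fun y => y⁻¹) * cl a := by
    intro x hx h
    have h1 : (cl a).image (fun y => y * x) ⊆ cl (a * x) := by
      intro z hz
      obtain ⟨y, hy, rfl⟩ := Finset.mem_image.1 hz
      rw [mem_cl]
      refine ⟨r y, ?_⟩
      have h2 := hr y hy
      have h3 := hx y hy
      calc r y * (a * x) * (r y)⁻¹ = (r y * a * (r y)⁻¹) * (r y * x * (r y)⁻¹) := by group
        _ = y * x := by rw [h2, h3, mul_inv_cancel_right]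
    have h2 : (cl a).image (fun y => y * x) = cl (a * x) := by
      apply Finset.eq_of_subset_of_card_le h1
      rw [Finset.card_image_of_injective _ (mul_left_injective x)]
      exact ha _ (Finset.mem_univ _)
    have h3 : h * (a * x) * h⁻¹ ∈ cl (a * x) := mem_cl_conj _ _
    rw [← h2, Finset.mem_image] at h3
    obtain ⟨y, hy, hyx⟩ := h3
    rw [Finset.mem_mul]
    refine ⟨(h * a * h⁻¹)⁻¹, Finset.mem_image.2 ⟨h * a * h⁻¹, mem_cl_conj _ _, rfl⟩, y, hy, ?_⟩
    have h4 : y = h * (a * x) * h⁻¹ * x⁻¹ := by rw [← hyx]; group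
    rw [h4]
    group
  -- the invariant of the cosets
  let f : G → (cl a → G) := fun x y => x * r y * x⁻¹
  let F : Finset (cl a → G) := univ.image f
  have hF : F.card ≤ b ^ b := by
    have h1 : F ⊆ Fintype.piFinset fun y : cl a => cl (r y) := by
      intro z hz
      obtain ⟨x, _, rfl⟩ := Finset.mem_image.1 hz
      rw [Fintype.mem_piFinset]
      intro y
      exact mem_cl_conj _ _
    calc F.card ≤ _ := Finset.card_le_card h1
      _ = ∏ y : cl a, (cl (r y)).card := Fintype.card_piFinset _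
      _ ≤ ∏ y : cl a, b := Finset.prod_le_prod' fun y _ => hb _
      _ = b ^ (cl a).card := by rw [Finset.prod_const, Finset.card_univ, Fintype.card_coe]
      _ ≤ b ^ b := Nat.pow_le_pow_right hb1 (hb a)
  have hs : ∀ z : cl a → G, ∃ s : G, z ∈ F → f s = z := by
    intro z
    by_cases hz : z ∈ F
    · obtain ⟨s, _, hs⟩ := Finset.mem_image.1 hz
      exact ⟨s, fun _ => hs⟩
    · exact ⟨1, fun h => absurd h hz⟩
  choose s hs using hs
  let Y : Finset G := (cl a).image (fun y => y⁻¹) * cl a
  have hY : Y.card ≤ b * b := by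
    calc Y.card ≤ _ := Finset.card_mul_le
      _ ≤ (cl a).card * (cl a).card := Nat.mul_le_mul_right _ Finset.card_image_le
      _ ≤ b * b := Nat.mul_le_mul (hb a) (hb a)
  let W : Finset G := F.biUnion fun z => (cl (s z) ×ˢ Y).image fun p => p.1 * p.2 * (s z)⁻¹
  have hW : W.card ≤ b ^ b * (b * (b * b)) := by
    calc W.card ≤ ∑ z ∈ F, ((cl (s z) ×ˢ Y).image fun p => p.1 * p.2 * (s z)⁻¹).card := Finset.card_biUnion_le
      _ ≤ ∑ z ∈ F, b * (b * b) := by
          apply Finset.sum_le_sum
          intro z _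
          refine Finset.card_image_le.trans ?_
          rw [Finset.card_product]
          exact Nat.mul_le_mul (hb _) hY
      _ = F.card * (b * (b * b)) := by rw [Finset.sum_const, smul_eq_mul]
      _ ≤ _ := Nat.mul_le_mul_right _ hF
  have hsub : commutatorSet G ⊆ (W : Set G) := by
    rintro z ⟨h, y, rfl⟩
    rw [Finset.mem_coe, Finset.mem_biUnion]
    refine ⟨f y, Finset.mem_image.2 ⟨y, Finset.mem_univ _, rfl⟩, ?_⟩
    have hfy := hs (f y) (Finset.mem_image.2 ⟨y, Finset.mem_univ _, rfl⟩)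
    set t := s (f y) with ht
    have hx : ∀ w ∈ cl a, r w * (t⁻¹ * y) = (t⁻¹ * y) * r w := by
      intro w hw
      have h1 : t * r w * t⁻¹ = y * r w * y⁻¹ := congrFun hfy ⟨w, hw⟩
      have h2 : r w = t⁻¹ * (y * r w * y⁻¹) * t := by rw [← h1]; group
      calc r w * (t⁻¹ * y) = (t⁻¹ * (y * r w * y⁻¹) * t) * (t⁻¹ * y) := by rw [← h2]
        _ = _ := by group
    have h3 := hD (t⁻¹ * y) hx h
    rw [Finset.mem_image]
    refine ⟨(h * t * h⁻¹, h * (t⁻¹ * y) * h⁻¹ * (t⁻¹ * y)⁻¹), Finset.mem_product.2 ⟨mem_cl_conj _ _, h3⟩, ?_⟩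
    rw [commutatorElement_def]
    simp only
    group
  calc Nat.card (commutatorSet G) ≤ Nat.card (W : Set G) := Nat.card_mono (Finset.finite_toSet W) hsub
    _ = W.card := by simp
    _ ≤ _ := hW

end

end Pool.Agent.Q42.IP
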