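import Pool.Agent.Q42.IP.Neu
import Pool.Agent.Q42.IP.Gauss

namespace Pool.Agent.Q42.IP
open Finset
open scoped Pointwise

/-- the bound for the commutator subgroup -/
def M2 (q : ℕ) : ℕ :=
  let b := (2 * q ^ 2) ^ (3 * (2 * q ^ 2) + 3)
  ∑ n ∈ range (b ^ b * (b * (b * b)) + 1), Subgroup.cardCommutatorBound n

/-- the bound for the index -/
def M1 (q : ℕ) : ℕ := 2 * q ^ 2 * M2 q ^ M2 q

theorem exists_C {G : Type*} [Group G] [Fintype G] [DecidableEq G] (q : ℕ)
    (hq : Fintype.card G ≤ q * (TT G).card) :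
    ∃ C : Subgroup G, C.Normal ∧ C.index ≤ M1 q ∧ Nat.card ↥(⁅C, C⁆ : Subgroup G) ≤ M2 q ∧
      ∀ z ∈ (⁅C, C⁆ : Subgroup G), ∀ x ∈ C, z * x = x * z := by
  classical
  have hN0 : 0 < Fintype.card G := Fintype.card_pos
  set c := 2 * q ^ 2 with hc
  have hq0 : 0 < q := by
    rcases Nat.eq_zero_or_pos q with h | h
    · subst h; omega
    · exact h
  have hc1 : 1 ≤ c := by
    have : 0 < 2 * q ^ 2 := by positivity
    exact this
  set X : Finset G := XX G c with hX
  have hXc : Fintype.card G ≤ c * X.card := card_XX q hq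
  have h1X : (1 : G) ∈ X := by
    rw [hX]; unfold XX
    rw [Finset.mem_filter, cl_one]
    exact ⟨Finset.mem_univ _, hc1⟩
  have hinvX : ∀ x ∈ X, x⁻¹ ∈ X := by
    intro x hx
    rw [hX] at hx ⊢; unfold XX at hx ⊢
    rw [Finset.mem_filter] at hx ⊢
    rw [cl_inv]
    exact ⟨Finset.mem_univ _, hx.2⟩
  have hconjX : ∀ x ∈ X, ∀ g : G, g * x * g⁻¹ ∈ X := by
    intro x hx g
    rw [hX] at hx ⊢; unfold XX at hx ⊢
    rw [Finset.mem_filter] at hx ⊢
    rw [cl_conj]
    exact ⟨Finset.mem_univ _, hx.2⟩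
  let H : Subgroup G := Subgroup.closure (X : Set G)
  have hHn : H.Normal := by
    constructor
    intro n hn g
    induction hn using Subgroup.closure_induction with
    | mem x hx => exact Subgroup.subset_closure (Finset.mem_coe.2 (hconjX x (Finset.mem_coe.1 hx) g))
    | one => rw [mul_one, mul_inv_cancel]; exact H.one_mem
    | mul x y _ _ hx hy =>
      have : g * (x * y) * g⁻¹ = (g * x * g⁻¹) * (g * y * g⁻¹) := by group
      rw [this]; exact H.mul_mem hx hy
    | inv x _ hx =>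
      have : g * x⁻¹ * g⁻¹ = (g * x * g⁻¹)⁻¹ := by group
      rw [this]; exact H.inv_mem hx
  have hgen := gen_bound X h1X hinvX c hXc
  set b := c ^ (3 * c + 3) with hb
  have hclH : ∀ h ∈ H, (cl h).card ≤ b := fun h hh => pow_cl c (3 * c + 3) h (hgen h hh)
  let _ : Fintype H := Fintype.ofFinite H
  have hclH' : ∀ x : H, (cl x).card ≤ b := by
    intro x
    refine le_trans ?_ (hclH x.1 x.2)
    apply Finset.card_le_card_of_injOn (fun y : H => (y : G))
    · intro y hy
      rw [Finset.mem_coe, mem_cl] at hy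
      obtain ⟨g, rfl⟩ := hy
      rw [Finset.mem_coe, mem_cl]
      exact ⟨g.1, by simp⟩
    · intro a _ b _ hab
      exact Subtype.ext hab
  have hcom := card_commutatorSet_le b hclH'
  have hK1 : Nat.card (commutator H) ≤ M2 q := by
    refine (Subgroup.card_commutator_le_of_finite_commutatorSet (G := H)).trans ?_
    have : Subgroup.cardCommutatorBound (Nat.card (commutatorSet H)) ≤
        ∑ n ∈ range (b ^ b * (b * (b * b)) + 1), Subgroup.cardCommutatorBound n :=
      Finset.single_le_sum (f := fun n => Subgroup.cardCommutatorBound n) (fun n _ => Nat.zero_le _)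
        (Finset.mem_range.2 (Nat.lt_succ_of_le hcom))
    exact this
  let K : Subgroup G := ⁅H, H⁆
  have hKn : K.Normal := inferInstance
  have hKcard : Nat.card K ≤ M2 q := by
    have h1 : (commutator H).map H.subtype = K := Subgroup.map_subtype_commutator H
    rw [← h1]
    rw [← Nat.card_congr (Subgroup.equivMapOfInjective (commutator H) H.subtype H.subtype_injective).toEquiv]
    exact hK1
  let C : Subgroup G := H ⊓ Subgroup.centralizer (K : Set G)
  have hCn : C.Normal := inferInstance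
  have hHi : H.index ≤ c := by
    have h1 : Nat.card H * H.index = Nat.card G := Subgroup.card_mul_index H
    have h2 : X.card ≤ Nat.card H := by
      rw [← Fintype.card_coe, ← Nat.card_eq_fintype_card]
      apply Nat.card_le_card_of_injective (fun x : X => (⟨x.1, Subgroup.subset_closure (Finset.mem_coe.2 x.2)⟩ : H))
      intro a b hab
      exact Subtype.ext (congrArg (fun z : H => (z : G)) hab)
    have h3 : 0 < Nat.card H := Nat.card_pos
    have h4 : Nat.card H * H.index ≤ Nat.card H * c := by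
      rw [h1, Nat.card_eq_fintype_card]
      calc Fintype.card G ≤ c * X.card := hXc
        _ ≤ c * Nat.card H := Nat.mul_le_mul_left _ h2
        _ = _ := Nat.mul_comm _ _
    exact Nat.le_of_mul_le_mul_left h4 h3
  have hCi : (Subgroup.centralizer (K : Set G)).index ≤ M2 q ^ M2 q := by
    let f : G → (K → K) := fun g k => ⟨g * k.1 * g⁻¹, hKn.conj_mem k.1 k.2 g⟩
    have hinj : Function.Injective (fun u : G ⧸ Subgroup.centralizer (K : Set G) => f u.out) := by
      intro u v huv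
      rw [← QuotientGroup.out_eq' u, ← QuotientGroup.out_eq' v]
      rw [QuotientGroup.eq, Subgroup.mem_centralizer_iff]
      intro k hk
      have h1 : u.out * k * (u.out)⁻¹ = v.out * k * (v.out)⁻¹ := congrArg Subtype.val (congrFun huv ⟨k, hk⟩)
      have h2 : k = (u.out)⁻¹ * (v.out * k * (v.out)⁻¹) * u.out := by rw [← h1]; group
      calc k * ((u.out)⁻¹ * v.out) = ((u.out)⁻¹ * (v.out * k * (v.out)⁻¹) * u.out) * ((u.out)⁻¹ * v.out) := by rw [← h2]
        _ = _ := by group
    have h1 : (Subgroup.centralizer (K : Set G)).index ≤ Nat.card (K → K) :=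
      Nat.card_le_card_of_injective _ hinj
    rw [Nat.card_fun] at h1
    refine h1.trans ?_
    have h2 : 1 ≤ Nat.card K := Nat.card_pos
    calc Nat.card K ^ Nat.card K ≤ M2 q ^ Nat.card K := Nat.pow_le_pow_left hKcard _
      _ ≤ M2 q ^ M2 q := Nat.pow_le_pow_right (h2.trans hKcard) hKcard
  have hCK : (⁅C, C⁆ : Subgroup G) ≤ K := Subgroup.commutator_mono inf_le_left inf_le_left
  refine ⟨C, hCn, ?_, ?_, ?_⟩
  · calc C.index ≤ H.index * (Subgroup.centralizer (K : Set G)).index := Subgroup.index_inf_le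
      _ ≤ c * M2 q ^ M2 q := Nat.mul_le_mul hHi hCi
  · refine le_trans ?_ hKcard
    exact Nat.card_le_card_of_injective _ (Subgroup.inclusion_injective hCK)
  · intro z hz x hx
    exact Subgroup.mem_centralizer_iff.1 hx.2 z (hCK hz)

/-- `0` and the numbers `1 / n` -/
def A0 : Set ℝ := insert 0 (Set.range fun n : ℕ => 1 / (n : ℝ))

/-- the possible terms -/
def Q0 : Set ℝ := (A0 * A0) * K0

/-- sums of `n` terms -/
def SS : ℕ → Set ℝ
  | 0 => {0}
  | n + 1 => SS n + Q0

section coset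
variable {G : Type*} [Group G] [Fintype G] [DecidableEq G]

theorem coset_count (C : Subgroup G) (hC : C.Normal) (hz : ∀ z ∈ (⁅C, C⁆ : Subgroup G), ∀ x ∈ C, z * x = x * z)
    (g : G) (hg : g * g = 1) [DecidablePred fun y => g⁻¹ * y ∈ C] :
    ∃ (ι : Type) (_ : Fintype ι) (e : ι → ℝ), Fintype.card ι = Nat.card ↥(⁅C, C⁆ : Subgroup G) ∧ (∀ i, e i ∈ Q0) ∧
      (((TT G).filter fun y => g⁻¹ * y ∈ C).card : ℝ) / Fintype.card G = ∑ i, e i := by
  classical
  set Z : Subgroup G := ⁅C, C⁆ with hZ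
  have hZC : Z ≤ C := by
    rw [hZ, Subgroup.commutator_le]
    intro a ha b hb
    exact C.mul_mem (C.mul_mem (C.mul_mem ha hb) (C.inv_mem ha)) (C.inv_mem hb)
  have hgi : g⁻¹ = g := inv_eq_of_mul_eq_one_left hg
  have hφC : ∀ x ∈ C, g * x * g ∈ C := by
    intro x hx
    have := hC.conj_mem x hx g
    rwa [hgi] at this
  have hcomm : ∀ x ∈ C, ∀ y ∈ C, x⁻¹ * y⁻¹ * x * y ∈ Z := by
    intro x hx y hy
    have := Subgroup.commutator_mem_commutator (C.inv_mem hx) (C.inv_mem hy)
    rw [commutatorElement_def, inv_inv, inv_inv] at this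
    exact this
  have hkmul : ∀ x ∈ C, ∀ y ∈ C, g * x * g * x ∈ Z → g * y * g * y ∈ Z →
      g * (x * y) * g * (x * y) = (g * x * g * x) * (g * y * g * y) * (x⁻¹ * y⁻¹ * x * y) := by
    intro x hx y hy hkx hky
    have h1 : g * (x * y) * g * (x * y) = (g * x * g) * ((g * y * g * y) * (y⁻¹ * x * y)) := by
      have : g * (x * y) * g * (x * y) = g * x * (g * g) * y * g * (y * y⁻¹) * x * y := by
        rw [hg, mul_one, mul_inv_cancel, mul_one]; group
      rw [this]; group
    have h2 : (g * y * g * y) * (y⁻¹ * x * y) = (y⁻¹ * x * y) * (g * y * g * y) :=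
      hz _ hky _ (C.mul_mem (C.mul_mem (C.inv_mem hy) hx) hy)
    have h3 : (g * y * g * y) * (x⁻¹ * y⁻¹ * x * y) = (x⁻¹ * y⁻¹ * x * y) * (g * y * g * y) :=
      hz _ hky _ (hZC (hcomm x hx y hy))
    rw [h1, h2, mul_assoc (g * x * g * x), h3]
    group
  let B : Subgroup G :=
    { carrier := {x | x ∈ C ∧ g * x * g * x ∈ Z}
      mul_mem' := fun {x y} hx hy => ⟨C.mul_mem hx.1 hy.1, by
        rw [hkmul x hx.1 y hy.1 hx.2 hy.2]
        exact Z.mul_mem (Z.mul_mem hx.2 hy.2) (hcomm x hx.1 y hy.1)⟩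
      one_mem' := ⟨C.one_mem, by rw [mul_one, mul_one, hg]; exact Z.one_mem⟩
      inv_mem' := fun {x} hx => ⟨C.inv_mem hx.1, by
        have h1 : (g * x * g * x) * x⁻¹ = x⁻¹ * (g * x * g * x) := hz _ hx.2 _ (C.inv_mem hx.1)
        have h2 : g * x⁻¹ * g * x⁻¹ = (g * x * g * x)⁻¹ := by
          have h3 : g * x * g = x⁻¹ * (g * x * g * x) := by rw [← h1]; group
          have h4 : g * x⁻¹ * g = (g * x * g)⁻¹ := by
            rw [mul_inv_rev, mul_inv_rev, hgi]; group
          have h5 : x * (g * x * g) = g * x * g * x := by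
            calc x * (g * x * g) = x * (x⁻¹ * (g * x * g * x)) := by rw [← h3]
              _ = _ := by rw [mul_inv_cancel_left]
          rw [h4, ← mul_inv_rev, h5]
        rw [h2]
        exact Z.inv_mem hx.2⟩ }
  let _ : CommGroup Z := { (inferInstance : Group Z) with
    mul_comm := fun a b => Subtype.ext (hz a.1 a.2 b.1 (hZC b.2)) }
  let _ : Fintype Z := Fintype.ofFinite Z
  let _ : Fintype B := Fintype.ofFinite B
  let k : B → Z := fun x => ⟨g * x.1 * g * x.1, x.2.2⟩
  let β : B → B → Z := fun x y => ⟨x.1⁻¹ * y.1⁻¹ * x.1 * y.1, hcomm x.1 x.2.1 y.1 y.2.1⟩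
  have hquad : Quad k β :=
    { mul := fun x y => Subtype.ext (hkmul x.1 x.2.1 y.1 y.2.1 x.2.2 y.2.2)
      left := fun x y z => Subtype.ext (by
        change (x.1 * y.1)⁻¹ * z.1⁻¹ * (x.1 * y.1) * z.1 = (x.1⁻¹ * z.1⁻¹ * x.1 * z.1) * (y.1⁻¹ * z.1⁻¹ * y.1 * z.1)
        have h1 : (x.1⁻¹ * z.1⁻¹ * x.1 * z.1) * y.1⁻¹ = y.1⁻¹ * (x.1⁻¹ * z.1⁻¹ * x.1 * z.1) :=
          hz _ (hcomm x.1 x.2.1 z.1 z.2.1) _ (C.inv_mem y.2.1)
        have h2 : (x.1⁻¹ * z.1⁻¹ * x.1 * z.1) * (y.1⁻¹ * z.1⁻¹ * y.1 * z.1) =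
            ((x.1⁻¹ * z.1⁻¹ * x.1 * z.1) * y.1⁻¹) * (z.1⁻¹ * y.1 * z.1) := by group
        rw [h2, h1]
        group)
      right := fun x y z => Subtype.ext (by
        change x.1⁻¹ * (y.1 * z.1)⁻¹ * x.1 * (y.1 * z.1) = (x.1⁻¹ * y.1⁻¹ * x.1 * y.1) * (x.1⁻¹ * z.1⁻¹ * x.1 * z.1)
        have h1 : (x.1⁻¹ * y.1⁻¹ * x.1 * y.1) * (x.1⁻¹ * z.1⁻¹ * x.1) = (x.1⁻¹ * z.1⁻¹ * x.1) * (x.1⁻¹ * y.1⁻¹ * x.1 * y.1) :=
          hz _ (hcomm x.1 x.2.1 y.1 y.2.1) _ (C.mul_mem (C.mul_mem (C.inv_mem x.2.1) (C.inv_mem z.2.1)) x.2.1)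
        have h2 : (x.1⁻¹ * y.1⁻¹ * x.1 * y.1) * (x.1⁻¹ * z.1⁻¹ * x.1 * z.1) =
            ((x.1⁻¹ * y.1⁻¹ * x.1 * y.1) * (x.1⁻¹ * z.1⁻¹ * x.1)) * z.1 := by group
        rw [h2, h1]
        group)
      diag := fun x => Subtype.ext (by
        change x.1⁻¹ * (x.1⁻¹)⁻¹ * x.1 * x.1⁻¹ = 1
        group) }
  obtain ⟨e, he1, he2⟩ := zeros hquad
  have hcount : ((TT G).filter fun y => g⁻¹ * y ∈ C).card = (univ.filter fun x : B => k x = 1).card := by
    symm
    apply Finset.card_bij (fun x _ => g * x.1)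
    · intro x hx
      have h1 : g * x.1 * g * x.1 = 1 := congrArg Subtype.val (Finset.mem_filter.1 hx).2
      rw [Finset.mem_filter]
      refine ⟨Finset.mem_filter.2 ⟨Finset.mem_univ _, ?_⟩, ?_⟩
      · rw [← mul_assoc]; exact h1
      · rw [inv_mul_cancel_left]; exact x.2.1
    · intro x _ y _ hxy
      exact Subtype.ext (mul_left_cancel hxy)
    · intro y hy
      rw [Finset.mem_filter] at hy
      have hyy : y * y = 1 := (Finset.mem_filter.1 hy.1).2
      have h1 : g * (g⁻¹ * y) * g * (g⁻¹ * y) = 1 := by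
        have : g * (g⁻¹ * y) * g * (g⁻¹ * y) = y * y := by group
        rw [this, hyy]
      refine ⟨⟨g⁻¹ * y, hy.2, by rw [h1]; exact Z.one_mem⟩, ?_, by simp⟩
      rw [Finset.mem_filter]
      exact ⟨Finset.mem_univ _, Subtype.ext h1⟩
  have hAD : Fintype.card (AddChar (Additive Z) ℂ) = Nat.card Z := by
    rw [AddChar.card_eq, Nat.card_eq_fintype_card]
    exact Fintype.card_congr (Additive.toMul (α := Z))
  refine ⟨Fin (Nat.card Z), inferInstance,
    fun i => 1 / (Nat.card Z : ℝ) * (1 / (B.index : ℝ)) * e ((Fintype.equivFinOfCardEq hAD).symm i), Fintype.card_fin _, ?_, ?_⟩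
  · intro i
    apply Set.mul_mem_mul
    · apply Set.mul_mem_mul
      · exact Or.inr ⟨Nat.card Z, rfl⟩
      · exact Or.inr ⟨B.index, rfl⟩
    · exact he1 _
  · have h1 : ∑ i : Fin (Nat.card Z), 1 / (Nat.card Z : ℝ) * (1 / (B.index : ℝ)) * e ((Fintype.equivFinOfCardEq hAD).symm i) =
        (1 / (B.index : ℝ)) * (1 / (Nat.card Z : ℝ) * ∑ χ, e χ) := by
      rw [Equiv.sum_comp (Fintype.equivFinOfCardEq hAD).symm (fun χ => 1 / (Nat.card Z : ℝ) * (1 / (B.index : ℝ)) * e χ)]
      rw [← Finset.mul_sum]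
      ring
    rw [h1, hcount]
    have h2 : (Fintype.card G : ℝ) = Fintype.card B * B.index := by
      rw [← Nat.card_eq_fintype_card, ← Nat.card_eq_fintype_card]
      exact_mod_cast (Subgroup.card_mul_index B).symm
    have h3 : (Fintype.card Z : ℝ) = Nat.card Z := by rw [Nat.card_eq_fintype_card]
    rw [← h3, ← he2, h2]
    have h4 : (0 : ℝ) < Fintype.card B := by exact_mod_cast Fintype.card_pos
    have h5 : (0 : ℝ) < B.index := by exact_mod_cast Nat.pos_of_ne_zero Subgroup.index_ne_zero_of_finite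
    field_simp

end coset

theorem zero_mem_Q0 : (0 : ℝ) ∈ Q0 := by
  have h1 : (0 : ℝ) ∈ A0 := Set.mem_insert _ _
  have h2 : (0 : ℝ) ∈ K0 := Or.inl rfl
  have := Set.mul_mem_mul (Set.mul_mem_mul h1 h1) h2
  simpa [Q0] using this

theorem SS_mono {m n : ℕ} (h : m ≤ n) : SS m ⊆ SS n := by
  induction n, h using Nat.le_induction with
  | base => exact subset_rfl
  | succ n _ ih =>
    intro x hx
    have := Set.add_mem_add (ih hx) zero_mem_Q0
    rw [add_zero] at this
    exact this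

theorem SS_add {m n : ℕ} {x y : ℝ} (hx : x ∈ SS m) (hy : y ∈ SS n) : x + y ∈ SS (m + n) := by
  induction n generalizing y with
  | zero =>
    have : y = 0 := hy
    rw [this]
    simpa using hx
  | succ n ih =>
    obtain ⟨a, ha, b, hb, rfl⟩ := hy
    have h1 : x + (a + b) = (x + a) + b := by ring
    change x + (a + b) ∈ _
    rw [h1]
    exact Set.add_mem_add (ih ha) hb

theorem SS_sum {ι : Type*} (s : Finset ι) (m : ℕ) (f : ι → ℝ) (hf : ∀ i ∈ s, f i ∈ SS m) :
    ∑ i ∈ s, f i ∈ SS (s.card * m) := by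
  classical
  induction s using Finset.induction_on with
  | empty => simp [SS]
  | insert a s ha ih =>
    rw [Finset.sum_insert ha, Finset.card_insert_of_notMem ha, add_comm (f a),
      show (s.card + 1) * m = s.card * m + m by ring]
    exact SS_add (ih fun i hi => hf i (Finset.mem_insert_of_mem hi)) (hf a (Finset.mem_insert_self _ _))

theorem SS_sumQ {ι : Type*} (s : Finset ι) (f : ι → ℝ) (hf : ∀ i ∈ s, f i ∈ Q0) :
    ∑ i ∈ s, f i ∈ SS s.card := by
  have h := SS_sum s 1 f (fun i hi => ⟨0, rfl, f i, hf i hi, by simp⟩)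
  rwa [mul_one] at h

/-- the proportion of the solutions of `x ^ 2 = 1` -/
theorem main_mem {G : Type*} [Group G] [Fintype G] [DecidableEq G] (q : ℕ)
    (hq : Fintype.card G ≤ q * (TT G).card) :
    ((TT G).card : ℝ) / Fintype.card G ∈ SS (M1 q * M2 q) := by
  classical
  obtain ⟨C, hCn, hCi, hZ, hz⟩ := exists_C q hq
  let _ : Fintype (G ⧸ C) := Fintype.ofFinite _
  have h1 : (TT G).card = ∑ u : G ⧸ C, ((TT G).filter fun y : G => (y : G ⧸ C) = u).card :=
    Finset.card_eq_sum_card_fiberwise (fun _ _ => Finset.mem_coe.2 (Finset.mem_univ _))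
  have h2 : ((TT G).card : ℝ) / Fintype.card G =
      ∑ u : G ⧸ C, (((TT G).filter fun y : G => (y : G ⧸ C) = u).card : ℝ) / Fintype.card G := by
    rw [← Finset.sum_div, h1]
    push_cast
    rfl
  rw [h2]
  have h3 : ∀ u ∈ (univ : Finset (G ⧸ C)), (((TT G).filter fun y : G => (y : G ⧸ C) = u).card : ℝ) / Fintype.card G ∈ SS (M2 q) := by
    intro u _
    rcases Finset.eq_empty_or_nonempty ((TT G).filter fun y : G => (y : G ⧸ C) = u) with h0 | ⟨g, hg⟩
    · rw [h0, Finset.card_empty, Nat.cast_zero, zero_div]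
      exact SS_mono (Nat.zero_le _) rfl
    · rw [Finset.mem_filter] at hg
      have hgg : g * g = 1 := (Finset.mem_filter.1 hg.1).2
      obtain ⟨ι, hι, e, hcard, he, hsum⟩ := coset_count C hCn hz g hgg
      have h4 : ((TT G).filter fun y : G => (y : G ⧸ C) = u) = (TT G).filter fun y => g⁻¹ * y ∈ C := by
        apply Finset.filter_congr
        intro y _
        rw [← hg.2, eq_comm, QuotientGroup.eq]
      rw [h4, hsum]
      exact SS_mono (by rw [Finset.card_univ, hcard]; exact hZ) (SS_sumQ univ e fun i _ => he i)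
  have h5 := SS_sum univ (M2 q) _ h3
  refine SS_mono ?_ h5
  apply Nat.mul_le_mul_right
  rw [Finset.card_univ, ← Nat.card_eq_fintype_card]
  exact hCi

end Pool.Agent.Q42.IP
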